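import Pool.Agent.H143R3.MT.Stmts

set_option autoImplicit false

namespace Pool.Agent.H532R3.MT.TL

open MeasureTheory ProbabilityTheory Filter Topology
open scoped ENNReal NNReal
open Pool.Agent.H143R3.MT

universe u

lemma meas_aliveG {Ω : Type u} [MeasurableSpace Ω] (P : Measure Ω) (κ ρ ν : ℝ≥0)
    (X : ℝ≥0 → Ω → ℤ) (N : ℤ → Ω → ℕ) (Y : ℤ → ℕ → ℝ≥0 → Ω → ℤ) (hT : TrapModel P κ ρ ν X N Y)
    (h : ℝ≥0) (n : ℕ) : MeasurableSet (aliveG X N Y h n) := by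
  have : aliveG X N Y h n = ⋂ (i : ℕ), ⋂ (y : ℤ), ⋂ (j : ℕ),
      {ω | i ≤ n → (j < N y ω → y + Y y j (i * h) ω ≠ X (i * h) ω)} := by
    ext ω
    simp only [aliveG, Set.mem_iInter, Set.mem_ofPred_eq]
    constructor
    · intro H i y j hi hj
      exact H i hi y j hj
    · intro H i hi y j hj
      exact H i y j hi hj
  rw [this]
  refine MeasurableSet.iInter fun i => MeasurableSet.iInter fun y => MeasurableSet.iInter fun j => ?_
  by_cases hi : i ≤ n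
  · have e : {ω | i ≤ n → (j < N y ω → y + Y y j (i * h) ω ≠ X (i * h) ω)} =
        {ω | j < N y ω}ᶜ ∪ {ω | y + Y y j (i * h) ω = X (i * h) ω}ᶜ := by
      ext ω
      simp only [Set.mem_ofPred_eq, Set.mem_union, Set.mem_compl_iff, hi, true_imp_iff]
      tauto
    rw [e]
    refine MeasurableSet.union (MeasurableSet.compl ?_) (MeasurableSet.compl ?_)
    · exact measurableSet_lt measurable_const (hT.number_meas y)
    · exact measurableSet_eq_fun (measurable_const.add ((hT.trap y j).meas _)) (hT.walk.meas _)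
  · simp [hi]

lemma grid_tendsto (t s : ℝ≥0) (hst : s < t) (M : ℕ) (hM : 0 < M) :
    Tendsto (fun k : ℕ => ((⌈s / (t / ((M * 2 ^ k : ℕ) : ℝ≥0))⌉₊ : ℕ) : ℝ≥0) *
      (t / ((M * 2 ^ k : ℕ) : ℝ≥0))) atTop (𝓝[≥] s) := by
  have ht : 0 < t := lt_of_le_of_lt zero_le hst
  have hh0 : ∀ k : ℕ, 0 < t / ((M * 2 ^ k : ℕ) : ℝ≥0) := by
    intro k
    apply div_pos ht
    exact_mod_cast Nat.mul_pos hM (pow_pos two_pos k)
  have hlim : Tendsto (fun k : ℕ => t / ((M * 2 ^ k : ℕ) : ℝ≥0)) atTop (𝓝 0) := by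
    have e : (fun k : ℕ => t / ((M * 2 ^ k : ℕ) : ℝ≥0)) =
        fun k : ℕ => (t / (M : ℝ≥0)) * (2⁻¹ : ℝ≥0) ^ k := by
      funext k
      push_cast
      rw [inv_pow, div_mul_eq_div_div, div_eq_mul_inv (t / (M : ℝ≥0))]
    rw [e]
    have h1 : Tendsto (fun k : ℕ => (2⁻¹ : ℝ≥0) ^ k) atTop (𝓝 0) :=
      NNReal.tendsto_pow_atTop_nhds_zero_of_lt_one (by
        rw [inv_lt_one₀ (by norm_num)]; norm_num)
    simpa using h1.const_mul (t / (M : ℝ≥0))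
  have hge : ∀ k : ℕ, s ≤ ((⌈s / (t / ((M * 2 ^ k : ℕ) : ℝ≥0))⌉₊ : ℕ) : ℝ≥0) *
      (t / ((M * 2 ^ k : ℕ) : ℝ≥0)) := by
    intro k
    have := Nat.le_ceil (s / (t / ((M * 2 ^ k : ℕ) : ℝ≥0)))
    rwa [div_le_iff₀ (hh0 k)] at this
  have hle : ∀ k : ℕ, ((⌈s / (t / ((M * 2 ^ k : ℕ) : ℝ≥0))⌉₊ : ℕ) : ℝ≥0) *
      (t / ((M * 2 ^ k : ℕ) : ℝ≥0)) ≤ s + t / ((M * 2 ^ k : ℕ) : ℝ≥0) := by
    intro k
    have := (Nat.ceil_lt_add_one (zero_le : 0 ≤ s / (t / ((M * 2 ^ k : ℕ) : ℝ≥0)))).le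
    calc ((⌈s / (t / ((M * 2 ^ k : ℕ) : ℝ≥0))⌉₊ : ℕ) : ℝ≥0) * (t / ((M * 2 ^ k : ℕ) : ℝ≥0))
        ≤ (s / (t / ((M * 2 ^ k : ℕ) : ℝ≥0)) + 1) * (t / ((M * 2 ^ k : ℕ) : ℝ≥0)) := by
          gcongr
      _ = s + t / ((M * 2 ^ k : ℕ) : ℝ≥0) := by
          rw [add_mul, one_mul, div_mul_cancel₀ _ (hh0 k).ne']
  rw [tendsto_nhdsWithin_iff]
  constructor
  · have h2 : Tendsto (fun k : ℕ => s + t / ((M * 2 ^ k : ℕ) : ℝ≥0)) atTop (𝓝 s) := by
      simpa using hlim.const_add s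
    exact tendsto_of_tendsto_of_tendsto_of_le_of_le tendsto_const_nhds h2 hge hle
  · exact Eventually.of_forall fun k => hge k

theorem taskL : TaskL.{u} := by
  intro Ω _ P _ κ ρ ν X N Y hT t M hM
  have hn0 : ∀ k : ℕ, ((M * 2 ^ k : ℕ) : ℝ≥0) ≠ 0 := by
    intro k
    exact_mod_cast (Nat.mul_pos hM (pow_pos two_pos k)).ne'
  have hanti : Antitone fun k : ℕ => aliveG X N Y (t / ((M * 2 ^ k : ℕ) : ℝ≥0)) (M * 2 ^ k) := by
    apply antitone_nat_of_succ_le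
    intro k ω hω i hi y j hj
    have h2i : 2 * i ≤ M * 2 ^ (k + 1) := by
      rw [pow_succ]; nlinarith
    have := hω (2 * i) h2i y j hj
    have e : ((2 * i : ℕ) : ℝ≥0) * (t / ((M * 2 ^ (k + 1) : ℕ) : ℝ≥0)) =
        (i : ℝ≥0) * (t / ((M * 2 ^ k : ℕ) : ℝ≥0)) := by
      have hk := hn0 k
      push_cast at hk ⊢
      rw [pow_succ]
      field_simp
    rwa [e] at this
  have hlim := tendsto_measure_iInter_atTop (μ := P)
    (s := fun k : ℕ => aliveG X N Y (t / ((M * 2 ^ k : ℕ) : ℝ≥0)) (M * 2 ^ k))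
    (fun k => (meas_aliveG P κ ρ ν X N Y hT _ _).nullMeasurableSet) hanti
    ⟨0, measure_ne_top _ _⟩
  have hcongr : P (⋂ k : ℕ, aliveG X N Y (t / ((M * 2 ^ k : ℕ) : ℝ≥0)) (M * 2 ^ k)) =
      P (alive X N Y t) := by
    apply measure_congr
    have hY : ∀ᵐ ω ∂P, ∀ (y : ℤ) (j : ℕ), ∀ s, ∀ᶠ u in 𝓝[≥] s, Y y j u ω = Y y j s ω := by
      rw [ae_all_iff]
      intro y
      rw [ae_all_iff]
      intro j
      exact (hT.trap y j).rightCont
    filter_upwards [hT.walk.rightCont, hY] with ω hX hY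
    apply propext
    change ω ∈ (⋂ k : ℕ, aliveG X N Y (t / ((M * 2 ^ k : ℕ) : ℝ≥0)) (M * 2 ^ k)) ↔
      ω ∈ alive X N Y t
    rw [Set.mem_iInter]
    constructor
    · intro H s hs y j hj heq
      rcases hs.lt_or_eq with hlt | rfl
      · have hgt := grid_tendsto t s hlt M hM
        have e1 := hgt.eventually (hX s)
        have e2 := hgt.eventually (hY y j s)
        have e3 : ∀ᶠ u in 𝓝[≥] s, u < t :=
          mem_nhdsWithin_of_mem_nhds (Iio_mem_nhds hlt)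
        have e4 := hgt.eventually e3
        obtain ⟨k, h1, h2, h3⟩ := (e1.and (e2.and e4)).exists
        have hk : 0 < t / ((M * 2 ^ k : ℕ) : ℝ≥0) := by
          apply div_pos (lt_of_le_of_lt zero_le hlt)
          exact pos_iff_ne_zero.mpr (hn0 k)
        have hi : ⌈s / (t / ((M * 2 ^ k : ℕ) : ℝ≥0))⌉₊ ≤ M * 2 ^ k := by
          have h4 : ((⌈s / (t / ((M * 2 ^ k : ℕ) : ℝ≥0))⌉₊ : ℕ) : ℝ≥0) *
              (t / ((M * 2 ^ k : ℕ) : ℝ≥0)) <
              ((M * 2 ^ k : ℕ) : ℝ≥0) * (t / ((M * 2 ^ k : ℕ) : ℝ≥0)) := by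
            rw [mul_div_cancel₀ _ (hn0 k)]
            exact h3
          have h5 := lt_of_mul_lt_mul_right h4 zero_le
          exact_mod_cast h5.le
        refine H k _ hi y j hj ?_
        rw [h1, h2]
        exact heq
      · refine H 0 (M * 2 ^ 0) le_rfl y j hj ?_
        rw [mul_div_cancel₀ _ (hn0 0)]
        exact heq
    · intro H k i hi y j hj
      refine H _ ?_ y j hj
      calc (i : ℝ≥0) * (t / ((M * 2 ^ k : ℕ) : ℝ≥0))
          ≤ ((M * 2 ^ k : ℕ) : ℝ≥0) * (t / ((M * 2 ^ k : ℕ) : ℝ≥0)) := by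
            gcongr
        _ = t := by rw [mul_div_cancel₀ _ (hn0 k)]
  rw [hcongr] at hlim
  exact hlim

end Pool.Agent.H532R3.MT.TL
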